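import Pool.Agent.H52.XR2.S2
import Pool.Agent.H65.XR.B3

/-!
# Project XR2, row KTF: the time of a turn is the same at all fast heights
-/

set_option autoImplicit false

open MeasureTheory Set Filter Topology Metric Asymptotics
open scoped Real ENNReal RealInnerProductSpace

namespace Pool.XR2

open Pool.Agent.H45.XR

namespace KTF

lemma exists_bd {C : Set ℂ} (hC : Body C) : ∃ r R : ℝ, 0 < r ∧ Bd r R C := by
  obtain ⟨r, hr, hr'⟩ := Metric.mem_nhds_iff.1 hC.nhds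
  obtain ⟨R, hR⟩ := hC.cpt.isBounded.subset_closedBall (0 : ℂ)
  exact ⟨r, R, hr, hC, hr', hR⟩

/-- a generic sequence of directions. -/
lemma exists_seq {P : ℝ → Prop} (h : ∀ᵐ x : ℝ, P x) (φ : ℝ) :
    ∃ θ : ℕ → ℝ, (∀ n, 0 < θ n) ∧ (∀ n, θ n < 1) ∧ Tendsto θ atTop (𝓝 0) ∧ ∀ n, P (φ + θ n) := by
  have h1 : ∀ n : ℕ, ∃ t : ℝ, 0 < t ∧ t < 1 / ((n : ℝ) + 1) ∧ P (φ + t) := by
    intro n
    by_contra hc
    push Not at hc
    have h2 : Ioo φ (φ + 1 / ((n : ℝ) + 1)) ⊆ {x | ¬ P x} := by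
      intro x hx
      have h3 := hc (x - φ) (by linarith [hx.1]) (by linarith [hx.2])
      rwa [add_sub_cancel] at h3
    have h4 : volume {x | ¬ P x} = 0 := h
    have h5 : volume (Ioo φ (φ + 1 / ((n : ℝ) + 1))) = 0 := measure_mono_null h2 h4
    rw [Real.volume_Ioo, ENNReal.ofReal_eq_zero] at h5
    have h6 : (0 : ℝ) < 1 / ((n : ℝ) + 1) := by positivity
    linarith
  choose θ h2 h3 h4 using h1
  refine ⟨θ, h2, fun n => (h3 n).trans_le ?_, ?_, h4⟩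
  · rw [div_le_one (by positivity)]
    have : (0 : ℝ) ≤ n := Nat.cast_nonneg n
    linarith
  · exact squeeze_zero (fun n => (h2 n).le) (fun n => (h3 n).le)
      tendsto_one_div_add_atTop_nhds_zero_nat

/-- the comparison at two heights. -/
lemma key (T₁ T₂ : ℝ≥0∞) (θ τ ρ : ℕ → ℝ) (hτ : ∀ n, 0 < τ n) (hτ0 : Tendsto τ atTop (𝓝 0))
    (hρ : ∀ᶠ n in atTop, ρ n * (1 - 4 * τ n) ≤ τ n)
    (hlow : ∀ L : ℝ, 0 ≤ L → ENNReal.ofReal L < T₁ → ∀ᶠ n in atTop, L * τ n ≤ θ n)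
    (hupp : ∀ L : ℝ, T₂ < ENNReal.ofReal L → ∀ᶠ n in atTop, θ n ≤ L * ρ n) : T₁ ≤ T₂ := by
  by_contra hc
  push Not at hc
  obtain ⟨a, ha1, ha2⟩ := exists_between hc
  obtain ⟨b, hb1, hb2⟩ := exists_between ha2
  have hbt : b ≠ ⊤ := ne_top_of_lt hb2
  have hat : a ≠ ⊤ := ne_top_of_lt hb1
  have hapos : 0 < a.toReal := ENNReal.toReal_pos (ne_bot_of_gt ha1) hat
  have hab : a.toReal < b.toReal := (ENNReal.toReal_lt_toReal hat hbt).2 hb1
  have h1 := hlow b.toReal ENNReal.toReal_nonneg (by rwa [ENNReal.ofReal_toReal hbt])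
  have h2 := hupp a.toReal (by rwa [ENNReal.ofReal_toReal hat])
  have h3 : ∀ᶠ n in atTop, 4 * τ n < 1 - a.toReal / b.toReal := by
    have h4 : Tendsto (fun n => 4 * τ n) atTop (𝓝 (4 * 0)) := hτ0.const_mul 4
    rw [mul_zero] at h4
    have h5 : 0 < 1 - a.toReal / b.toReal := by
      rw [sub_pos, div_lt_one (hapos.trans hab)]; exact hab
    exact h4.eventually_lt_const h5
  obtain ⟨n, h1n, h2n, h3n, h4n⟩ := (h1.and (h2.and (h3.and hρ))).exists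
  have hb0 : 0 < b.toReal := hapos.trans hab
  have h5 : 0 ≤ a.toReal / b.toReal := by positivity
  have h6 : 0 < 1 - 4 * τ n := by
    have := hapos
    have h7 : 0 < a.toReal / b.toReal := by positivity
    linarith
  have h7 : a.toReal / b.toReal < 1 - 4 * τ n := by linarith
  rw [div_lt_iff₀ hb0] at h7
  have h8 : b.toReal * τ n ≤ a.toReal * ρ n := h1n.trans h2n
  have h9 : b.toReal * τ n * (1 - 4 * τ n) ≤ a.toReal * τ n := by
    calc b.toReal * τ n * (1 - 4 * τ n) ≤ a.toReal * ρ n * (1 - 4 * τ n) :=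
          mul_le_mul_of_nonneg_right h8 h6.le
      _ = a.toReal * (ρ n * (1 - 4 * τ n)) := by ring
      _ ≤ a.toReal * τ n := mul_le_mul_of_nonneg_left h4n hapos.le
  have h10 : a.toReal * τ n < (1 - 4 * τ n) * b.toReal * τ n :=
    mul_lt_mul_of_pos_right h7 (hτ n)
  nlinarith

/-- rotation numbers of `C` and of `C ∩ C'`. -/
lemma rot_le (hARC : ARCStmt) (hCMP : CMPStmt) {C C' : Set ℂ} {φ₀ φ₁ τ : ℝ}
    (h : PM C C' φ₀ φ₁) (hτ : rot (C ∩ C') φ₀ φ₁ = τ) (h0 : 0 < τ) (h1 : τ < 1 / 4) :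
    rot C φ₀ φ₁ * (1 - 4 * τ) ≤ τ := by
  by_cases hCC : C = C'
  · subst hCC
    rw [inter_self] at hτ
    rw [hτ]
    nlinarith
  · obtain ⟨M, v, c₀, c₁, hA⟩ := hARC C C' φ₀ φ₁ h hCC
    obtain ⟨h2, h3⟩ := hCMP C C' φ₀ φ₁ M v c₀ c₁ h hA
    rw [hτ] at h2
    have he : (2 : ℝ) ≤ ((c₁ - c₀ : ℤ) : ℝ) := by exact_mod_cast hA.e2
    set s : ℝ := ((c₁ - c₀ : ℤ) : ℝ) with hs
    have hM0 : (0 : ℝ) < M := by
      rcases Nat.eq_zero_or_pos M with hM | hM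
      · rw [hM] at h2; simp at h2; linarith
      · exact_mod_cast hM
    have h4 : τ * M = s := by rw [h2]; field_simp
    have hM8 : (8 : ℝ) < M := by nlinarith
    have hM8' : 8 < M := by exact_mod_cast hM8
    have h5 := h3 hM8'
    have h6 : rot C φ₀ φ₁ * ((M : ℝ) - 8) ≤ s := by
      rwa [le_div_iff₀ (by linarith)] at h5
    have h7 : s * (1 - 4 * τ) ≤ τ * (M - 8) := by nlinarith
    have h8 : 0 < (M : ℝ) - 8 := by linarith
    have h9 : 0 < 1 - 4 * τ := by linarith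
    have h10 : rot C φ₀ φ₁ * (1 - 4 * τ) * ((M : ℝ) - 8) ≤ τ * ((M : ℝ) - 8) := by
      calc rot C φ₀ φ₁ * (1 - 4 * τ) * ((M : ℝ) - 8)
          = rot C φ₀ φ₁ * ((M : ℝ) - 8) * (1 - 4 * τ) := by ring
        _ ≤ s * (1 - 4 * τ) := mul_le_mul_of_nonneg_right h6 h9.le
        _ ≤ _ := h7
    exact le_of_mul_le_mul_right h10 h8

end KTF

open KTF in
/-- KTF. -/
theorem t_ktf (hCRT : CRTStmt) (hCLS : CLSStmt) (hTWL : TWLStmt) (hLOW : LOWStmt)
    (hUPP : UPPStmt) (hARC : ARCStmt) (hCMP : CMPStmt) (hPMH : PMHStmt) (hWFL : WFLStmt)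
    (hSGB : SGBStmt) : KTFStmt := by
  intro K φ hK hU hS hN h hh h' hh' hF hF'
  obtain ⟨θ, hθ0, hθ1, hθt, hθ⟩ := exists_seq (hCRT K φ hK hN) φ
  have hpi := Real.pi_gt_three
  have hlt : ∀ n, φ < φ + θ n := fun n => by linarith [hθ0 n]
  have hlt' : ∀ n, φ + θ n < φ + π := fun n => by linarith [hθ1 n]
  have hNn : ∀ n, NSH K (φ + θ n) := fun n => (hθ n (hlt n) (hlt' n)).1
  have hmate : ∀ n, ∃ K', Mate K K' φ (φ + θ n) ∧ K' ≠ K := by
    intro n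
    have h1 := hU 0 φ (φ + θ n) (hlt n) (hlt' n)
    rwa [(hSGB K hK).2.1] at h1
  choose K' hM hne using hmate
  have hτ' : ∀ n, ∃ τ : ℝ, 0 < τ ∧ τ < 1 ∧ ∀ h ∈ Hts K, rot3 K (K' n) φ (φ + θ n) h = τ :=
    fun n => (hθ n (hlt n) (hlt' n)).2 (K' n) (hM n) (hne n)
  choose τ hτ0 hτ1 hτ using hτ'
  -- the types tend to zero
  have hτt : Tendsto τ atTop (𝓝 0) := by
    rw [Metric.tendsto_atTop]
    by_contra hc
    push Not at hc
    obtain ⟨c, hc0, hc1⟩ := hc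
    obtain ⟨σ, hσ, hσ'⟩ := Filter.extraction_of_frequently_atTop
      (Filter.frequently_atTop.2 hc1)
    apply hS
    refine hCLS K (fun _ => 0) (fun _ => φ) (fun n => θ (σ n)) (fun n => τ (σ n))
      (fun n => K' (σ n)) φ c hK tendsto_const_nhds tendsto_const_nhds
      (hθt.comp hσ.tendsto_atTop) (fun n => hθ0 _) ?_ ?_ ?_ hc0 ?_ ?_
    · intro n; rw [(hSGB K hK).2.1]; exact hN
    · intro n; rw [(hSGB K hK).2.1]; exact hNn _
    · intro n; rw [(hSGB K hK).2.1]; exact hM _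
    · intro n
      have h1 := hσ' n
      rw [Real.dist_eq, sub_zero, abs_of_pos (hτ0 _)] at h1
      exact h1
    · intro n; rw [(hSGB K hK).2.1]; exact hτ _
  -- facts at one height
  have hone : ∀ h ∈ Hts K, Fast (Cq K h) φ → Tm (Cq K h) φ ≠ ⊤ ∧
      (∀ L : ℝ, 0 ≤ L → ENNReal.ofReal L < Tm (Cq K h) φ → ∀ᶠ n in atTop, L * τ n ≤ θ n) ∧
      (∀ L : ℝ, Tm (Cq K h) φ < ENNReal.ofReal L →
        ∀ᶠ n in atTop, θ n ≤ L * rot (Cq K h) φ (φ + θ n)) ∧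
      ∀ᶠ n in atTop, rot (Cq K h) φ (φ + θ n) * (1 - 4 * τ n) ≤ τ n := by
    intro h hh hF
    have hb : Body (Cq K h) := body_Cq hK hh
    have hNS : NoSeg (Cq K h) φ := hN h hh
    have hNS' : ∀ n, NoSeg (Cq K h) (φ + θ n) := fun n => hNn n h hh
    have hPM : ∀ n, PM (Cq K h) (Cq (K' n) h) φ (φ + θ n) ∧ ∫ z in Cq K h, z = 0 := fun n =>
      ((hPMH K (K' n) φ (φ + θ n) hK (hM n) (hlt n) (hlt' n) hN (hNn n)).2 h hh).2
    have hrot : ∀ n, rot (Cq K h ∩ Cq (K' n) h) φ (φ + θ n) = τ n := fun n => hτ n h hh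
    obtain ⟨hT, hupp⟩ := hUPP (Cq K h) φ θ hb hNS hF hNS' hθ0 hθt
    obtain ⟨r, R, hr, hBd⟩ := exists_bd hb
    have hclose : ∀ ε > 0, ∀ᶠ n in atTop, ∀ α, |rad (Cq (K' n) h) α - rad (Cq K h) α| ≤ ε := by
      intro ε hε
      obtain ⟨θ₀, hθ₀, h1⟩ := hTWL r R (min ε (1 / 8)) hr (lt_min hε (by norm_num))
      filter_upwards [hθt.eventually_lt_const hθ₀, hτt.eventually_lt_const
        (show (0 : ℝ) < 1 / 4 by norm_num)] with n hn1 hn2
      rcases h1 (Cq K h) (Cq (K' n) h) φ (θ n) hBd (hPM n).2 (hPM n).1 hn1 with h2 | h2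
      · intro α
        exact (h2.1 α).trans (min_le_left _ _)
      · exfalso
        have h3 := h2.1.trans (min_le_right ε (1 / 8))
        rw [hrot n, abs_le] at h3
        linarith [h3.1]
    have hW := fun n => hWFL (Cq K h) (Cq (K' n) h) φ (hPM n).1.b (hPM n).1.b' (hPM n).1.x0 hNS
    have hW' := fun n => hWFL (Cq K h) (Cq (K' n) h) (φ + θ n) (hPM n).1.b (hPM n).1.b'
      (hPM n).1.x1 (hNS' n)
    have hBL : BLim (fun n => Cq K h ∩ Cq (K' n) h) (Cq K h) := by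
      rw [BLim, Metric.tendstoUniformly_iff]
      intro ε hε
      filter_upwards [hclose (ε / 2) (by positivity)] with n hn x
      have h1 := hn x
      rw [B3.rad_inter hb (hPM n).1.b', Real.dist_eq]
      rw [abs_le] at h1
      rw [abs_lt]
      rcases min_cases (rad (Cq K h) x) (rad (Cq (K' n) h) x) with ⟨h2, h3⟩ | ⟨h2, h3⟩ <;>
        rw [h2] <;> constructor <;> linarith [h1.1, h1.2]
    refine ⟨hT, ?_, hupp, ?_⟩
    · intro L hL hLT
      have h1 := hLOW (Cq K h) (fun n => Cq K h ∩ Cq (K' n) h) φ θ hb hNS (fun n => (hW n).1)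
        (fun n => inter_subset_left) hBL (fun n => (hW n).2.1) (fun n => (hW' n).2.1) hθ0 hθt
        L hL hLT
      filter_upwards [h1] with n hn
      rwa [hrot n] at hn
    · filter_upwards [hτt.eventually_lt_const (show (0 : ℝ) < 1 / 4 by norm_num)] with n hn
      exact rot_le hARC hCMP (hPM n).1 (hrot n) (hτ0 n) hn
  obtain ⟨a1, a2, a3, a4⟩ := hone h hh hF
  obtain ⟨b1, b2, b3, b4⟩ := hone h' hh' hF'
  exact ⟨a1, le_antisymm (key _ _ θ τ _ hτ0 hτt b4 a2 b3) (key _ _ θ τ _ hτ0 hτt a4 b2 a3)⟩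

end Pool.XR2
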